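import Pool.Agent.H75.SQ.Basic

/-!
# Quantum statistical algorithms for satisfiability: the row OPT (the third part of the theorem)
-/

set_option autoImplicit false

namespace Pool.Agent.H74.SQ.OPT

open Finset Matrix Pool.Agent.H75.SQ

/-- the guesses for the first `s` variables -/
private noncomputable def G (n k s : ℕ) : Finset (Fin n → Bool) := by
  classical exact univ.filter fun a => (∀ i : Fin n, s ≤ (i : ℕ) → a i = false) ∧
    (Even k → ∀ i : Fin n, (i : ℕ) = 0 → a i = false)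

private theorem mem_G {n k s : ℕ} (a : Fin n → Bool) : a ∈ G n k s ↔
    (∀ i : Fin n, s ≤ (i : ℕ) → a i = false) ∧
      (Even k → ∀ i : Fin n, (i : ℕ) = 0 → a i = false) := by
  classical
  unfold G
  rw [Finset.mem_filter]
  simp

private theorem card_G_le (n k s : ℕ) (hs : s ≤ n) : (G n k s).card ≤ 2 ^ s := by
  classical
  have h1 : (univ : Finset (Fin s → Bool)).card = 2 ^ s := by simp
  rw [← h1]
  refine Finset.card_le_card_of_injOn (fun a j => a ⟨j, lt_of_lt_of_le j.2 hs⟩)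
    (fun _ _ => Finset.mem_coe.2 (Finset.mem_univ _)) ?_
  intro a ha b hb hab
  have ha' := ((mem_G a).1 ha).1
  have hb' := ((mem_G b).1 hb).1
  funext i
  by_cases hi : (i : ℕ) < s
  · exact congrFun hab ⟨i, hi⟩
  · rw [ha' i (not_lt.1 hi), hb' i (not_lt.1 hi)]

private theorem card_G_ge (n k s : ℕ) (hs : s ≤ n) : 2 ^ (s - 1) ≤ (G n k s).card := by
  classical
  have h1 : (univ : Finset (Fin (s - 1) → Bool)).card = 2 ^ (s - 1) := by simp
  rw [← h1]
  refine Finset.card_le_card_of_injOn (fun b i => if h : 0 < (i : ℕ) ∧ (i : ℕ) < s then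
    b ⟨(i : ℕ) - 1, by omega⟩ else false) ?_ ?_
  · intro b _
    refine Finset.mem_coe.2 ((mem_G _).2 ⟨fun i hi => ?_, fun _ i hi => ?_⟩)
    · exact dif_neg (by omega)
    · exact dif_neg (by omega)
  · intro b _ b' _ hbb
    funext j
    have hj := j.2
    have h2 := congrFun hbb ⟨(j : ℕ) + 1, by omega⟩
    have h3 : 0 < (j : ℕ) + 1 ∧ (j : ℕ) + 1 < s := by omega
    simp only [dif_pos h3] at h2
    exact h2

/-- clauses of positive weight have odd patterns -/
private theorem odd_of_pos {n k : ℕ} (z : Fin n → Bool) (C : Cl n k)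
    (h : pc (Qodd k) z C ≠ 0) : Odd (univ.filter fun i => pat z C i = true).card := by
  by_contra hc
  apply h
  unfold pc Qodd
  rw [if_neg hc]
  simp

private theorem pat_not {n k : ℕ} (z : Fin n → Bool) (C : Cl n k) (i : Fin k) :
    pat (fun j => !z j) C i = !pat z C i := by
  change ((!z (C i).1) == (C i).2) = !(z (C i).1 == (C i).2)
  cases z (C i).1 <;> cases (C i).2 <;> rfl

private theorem odd_not {n k : ℕ} (z : Fin n → Bool) (C : Cl n k) (hk : Even k)
    (h : Odd (univ.filter fun i => pat z C i = true).card) :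
    Odd (univ.filter fun i => pat (fun j => !z j) C i = true).card := by
  have h1 : (univ.filter fun i => pat (fun j => !z j) C i = true) =
      univ.filter fun i => ¬ pat z C i = true := by
    ext i
    simp [pat_not]
  have h2 := Finset.card_filter_add_card_filter_not (s := (univ : Finset (Fin k)))
    (fun i => pat z C i = true)
  rw [Finset.card_univ, Fintype.card_fin] at h2
  rw [h1]
  rcases h with ⟨u, hu⟩
  rcases hk with ⟨v, hv⟩
  exact ⟨v - u - 1, by omega⟩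

private theorem ht_nonneg {n k q : ℕ} (s : ℕ) (a : Fin n → Bool) (A : Fin q → Cl n k) :
    0 ≤ ht s a A := ind_nonneg _

private theorem ht_abs {n k q : ℕ} (s : ℕ) (a : Fin n → Bool) (A : Fin q → Cl n k) :
    |ht s a A| ≤ 1 := by
  rw [abs_of_nonneg (ht_nonneg s a A)]
  exact ind_le_one _

/-- the right guess passes the test -/
private theorem ex_one (hDIA : T_DIA) {n k m : ℕ} (q s : ℕ) (a y : Fin n → Bool)
    (F : Fin m → Cl n k) (hm : 0 < m) (hy : ∀ i : Fin n, (i : ℕ) < s → y i = a i)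
    (hF : ∀ j, Odd (univ.filter fun i => pat y (F j) i = true).card) :
    ex F (dm (ht s a) : Matrix (Fin q → Fin m × Cl n k) (Fin q → Fin m × Cl n k) ℂ) = 1 := by
  rw [(hDIA (Cl n k) m q (ht s a) hm (ht_abs s a)).2.1 F]
  have h1 : ∀ j : Fin q → Fin m, ht s a (fun i => F (j i)) = 1 := by
    intro j
    unfold ht
    exact ind_true _ ⟨y, hy, fun l => hF (j l)⟩
  simp only [h1]
  rw [Finset.sum_const, Finset.card_univ, Fintype.card_fun, Fintype.card_fin, Fintype.card_fin,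
    nsmul_eq_mul, mul_one]
  push_cast
  rw [div_self]
  positivity

/-- a test with a small mean is small for most of the formulas -/
private theorem small (hDIA : T_DIA) (hCNC : T_CNC) {n k : ℕ} (m q s : ℕ) (a : Fin n → Bool)
    (w : Cl n k → ℝ) (hw : Pw w) (hm : 0 < m) (hqm : (q : ℝ) ^ 2 / (2 * m) ≤ 1 / 64)
    (hmu : mu w q (ht s a) ≤ 1 / 32) :
    EF w m (fun F => ind (1 / 8 <
      ex F (dm (ht s a) : Matrix (Fin q → Fin m × Cl n k) (Fin q → Fin m × Cl n k) ℂ))) ≤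
      2 * Real.exp (-((1 / 32) ^ 2 * m / (1728 * (q + 1) ^ 4))) := by
  obtain ⟨h1, -, h3⟩ := hDIA (Cl n k) m q (ht s a) hm (ht_abs s a)
  have h4 := h3 w hw (ht_nonneg s a)
  have h5 := hCNC (Cl n k) w hw m q (dm (ht s a)) (1 / 32) hm h1 (by norm_num) (by norm_num)
  refine le_trans (EF_mono w hw.1 m _ _ fun F => ind_mono _ _ fun hF => ?_) h5
  refine lt_of_lt_of_le ?_ (le_abs_self _)
  linarith

/-- the union bound over the guesses -/
private theorem union (hDIA : T_DIA) (hCNC : T_CNC) {n k : ℕ} (m q s : ℕ)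
    (B : Finset (Fin n → Bool)) (w : Cl n k → ℝ) (hw : Pw w) (hm : 0 < m)
    (hqm : (q : ℝ) ^ 2 / (2 * m) ≤ 1 / 64) (hmu : ∀ a ∈ B, mu w q (ht s a) ≤ 1 / 32) :
    EF w m (fun F => ∑ a ∈ B, ind (1 / 8 <
      ex F (dm (ht s a) : Matrix (Fin q → Fin m × Cl n k) (Fin q → Fin m × Cl n k) ℂ))) ≤
      2 ^ n * (2 * Real.exp (-((1 / 32) ^ 2 * m / (1728 * (q + 1) ^ 4)))) := by
  rw [EF_sum]
  refine le_trans (Finset.sum_le_sum fun a ha => small hDIA hCNC m q s a w hw hm hqm (hmu a ha)) ?_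
  rw [Finset.sum_const, nsmul_eq_mul]
  refine mul_le_mul_of_nonneg_right ?_ (by positivity)
  have h1 := Finset.card_le_univ B
  rw [Fintype.card_fun, Fintype.card_bool, Fintype.card_fin] at h1
  exact_mod_cast h1

/-- if the bad event is covered, then the good one has a large probability -/
private theorem good {γ : Type} [Fintype γ] [DecidableEq γ] (w : γ → ℝ) (hw : Pw w) (m : ℕ)
    (p : (Fin m → γ) → Prop) (g : (Fin m → γ) → ℝ) (x : ℝ) (hg0 : ∀ F, 0 ≤ g F)
    (hg : ∀ F, (∀ j, w (F j) ≠ 0) → g F < 1 → p F) (hx : EF w m g ≤ x) :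
    1 - x ≤ EF w m (fun F => ind (p F)) := by
  have h1 : EF w m (fun F => 1 - ind (p F)) ≤ EF w m g := by
    unfold EF
    refine Finset.sum_le_sum fun F _ => ?_
    by_cases h2 : ∀ j, w (F j) ≠ 0
    · refine mul_le_mul_of_nonneg_left ?_ (prod_nonneg' w hw.1 m F)
      change 1 - ind (p F) ≤ g F
      by_cases h3 : p F
      · rw [ind_true _ h3]
        linarith [hg0 F]
      · rw [ind_false _ h3]
        by_contra h4
        exact h3 (hg F h2 (by linarith [not_le.1 h4]))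
    · push Not at h2
      obtain ⟨j, hj⟩ := h2
      rw [Finset.prod_eq_zero (Finset.mem_univ j) hj]
      simp
  rw [EF_sub, EF_const w hw m 1] at h1
  linarith

/-- the right guess and the wrong ones -/
private theorem right {n k : ℕ} (hn0 : 0 < n) (s : ℕ) (hs0 : 0 < s) (z : Fin n → Bool) :
    ∃ as y : Fin n → Bool, as ∈ G n k s ∧ (∀ i : Fin n, (i : ℕ) < s → y i = as i) ∧
      (∀ C : Cl n k, pc (Qodd k) z C ≠ 0 →
        Odd (univ.filter fun i => pat y C i = true).card) ∧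
      ∀ a ∈ G n k s, a ≠ as → (∃ i : Fin n, (i : ℕ) < s ∧ z i ≠ a i) ∧
        (Even k → ∃ i : Fin n, (i : ℕ) < s ∧ z i = a i) := by
  by_cases hcase : Even k → z ⟨0, hn0⟩ = false
  · refine ⟨fun i => if (i : ℕ) < s then z i else false, z, ?_, ?_, ?_, ?_⟩
    · refine (mem_G _).2 ⟨fun i hi => if_neg (by omega), fun hke i hi => ?_⟩
      have hi' : i = ⟨0, hn0⟩ := Fin.ext hi
      rw [hi']
      have h2 := hcase hke
      simp [h2]
    · intro i hi
      exact (if_pos hi).symm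
    · intro C hC
      exact odd_of_pos z C hC
    · intro a ha hane
      have ha' := (mem_G a).1 ha
      refine ⟨?_, fun hke => ⟨⟨0, hn0⟩, hs0, ?_⟩⟩
      · by_contra hc
        push Not at hc
        apply hane
        funext i
        by_cases hi : (i : ℕ) < s
        · simp only [if_pos hi]
          exact (hc i hi).symm
        · simp only [if_neg hi]
          exact ha'.1 i (not_lt.1 hi)
      · rw [hcase hke, ha'.2 hke ⟨0, hn0⟩ rfl]
  · push Not at hcase
    obtain ⟨hke, hz0⟩ := hcase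
    have hz0' : z ⟨0, hn0⟩ = true := by
      cases h : z ⟨0, hn0⟩
      · exact absurd h hz0
      · rfl
    refine ⟨fun i => if (i : ℕ) < s then !z i else false, fun i => !z i, ?_, ?_, ?_, ?_⟩
    · refine (mem_G _).2 ⟨fun i hi => if_neg (by omega), fun _ i hi => ?_⟩
      have hi' : i = ⟨0, hn0⟩ := Fin.ext hi
      rw [hi']
      simp [hz0']
    · intro i hi
      exact (if_pos hi).symm
    · intro C hC
      exact odd_not z C hke (odd_of_pos z C hC)
    · intro a ha hane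
      have ha' := (mem_G a).1 ha
      refine ⟨⟨⟨0, hn0⟩, hs0, ?_⟩, fun _ => ?_⟩
      · rw [hz0', ha'.2 hke ⟨0, hn0⟩ rfl]
        simp
      · by_contra hc
        push Not at hc
        apply hane
        funext i
        by_cases hi : (i : ℕ) < s
        · simp only [if_pos hi]
          have h2 := hc i hi
          generalize z i = u at h2 ⊢
          generalize a i = v at h2 ⊢
          cases u <;> cases v
          · exact absurd rfl h2
          · rfl
          · rfl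
          · exact absurd rfl h2
        · simp only [if_neg hi]
          exact ha'.1 i (not_lt.1 hi)

/-- the numbers -/
private theorem numbers (t e e' C1 : ℝ) (_ : 0 < t) (ht1 : t < 1) (he' : 0 < e')
    (hee : e' ≤ e / 2) (het : e' ≤ t / 2) : ∃ n₀ : ℕ, 2 ≤ n₀ ∧ ∀ n ≥ n₀, ∀ q m s : ℕ,
    (q : ℝ) ≤ t * n → (n : ℝ) ^ (max C1 8) ≤ m → (s : ℝ) < (1 - t + e') * n + 1 →
    (1 - t + e') * n ≤ s →
    0 < m ∧ (q : ℝ) ^ 2 / (2 * m) ≤ 1 / 64 ∧
    Real.sqrt (2 ^ s) + 1 ≤ (2 : ℝ) ^ ((1 - t + e) * n / 2) ∧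
    (1 : ℝ) / 2 ^ (s - 1) ≤ (2 : ℝ) ^ (-((1 - t) / 2 * n)) ∧
    (2 : ℝ) ^ n * (2 * Real.exp (-((1 / 32) ^ 2 * m / (1728 * (q + 1) ^ 4)))) ≤
      (2 : ℝ) ^ (-((1 - t) / 2 * n)) := by
  obtain ⟨n1, hn1⟩ := exists_nat_ge (8 / e)
  obtain ⟨n2, hn2⟩ := exists_nat_ge (2 / (1 - t))
  have he : 0 < e := by linarith
  have h1t : 0 < 1 - t := by linarith
  refine ⟨max 440 (max n1 n2), le_trans (by norm_num) (le_max_left _ _), ?_⟩
  intro n hn q m s hq hm hs1 hs2
  have hn440 : (440 : ℝ) ≤ n := by exact_mod_cast le_trans (le_max_left _ _) hn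
  have hnn1 : 8 / e ≤ n := le_trans hn1
    (by exact_mod_cast le_trans (le_trans (le_max_left _ _) (le_max_right _ _)) hn)
  have hnn2 : 2 / (1 - t) ≤ n := le_trans hn2
    (by exact_mod_cast le_trans (le_trans (le_max_right _ _) (le_max_right _ _)) hn)
  have hn0 : (0 : ℝ) < n := by linarith
  have hne : 8 ≤ n * e := by rwa [div_le_iff₀ he] at hnn1
  have hnt : 2 ≤ n * (1 - t) := by rwa [div_le_iff₀ h1t] at hnn2
  have hm8 : (n : ℝ) ^ 8 ≤ m := by
    refine le_trans ?_ hm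
    have h1 : (n : ℝ) ^ (8 : ℕ) = (n : ℝ) ^ (8 : ℝ) := by
      rw [← Real.rpow_natCast]; norm_num
    rw [h1]
    exact Real.rpow_le_rpow_of_exponent_le (by linarith) (le_max_right _ _)
  have hm0 : (0 : ℝ) < m := lt_of_lt_of_le (by positivity) hm8
  have hqn : (q : ℝ) ≤ n := by nlinarith
  have hq0 : (0 : ℝ) ≤ q := by positivity
  have h4 : (n : ℝ) ^ 2 * (n : ℝ) ^ 6 = (n : ℝ) ^ 8 := by ring
  have hn3 : (85184000 : ℝ) ≤ (n : ℝ) ^ 3 := by
    have := pow_le_pow_left₀ (by norm_num : (0 : ℝ) ≤ 440) hn440 3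
    norm_num at this
    exact this
  refine ⟨by exact_mod_cast hm0, ?_, ?_, ?_, ?_⟩
  · rw [div_le_div_iff₀ (by positivity) (by norm_num)]
    have h5 : (q : ℝ) ^ 2 ≤ (n : ℝ) ^ 2 := pow_le_pow_left₀ hq0 hqn 2
    have h6 : (64 : ℝ) ≤ (n : ℝ) ^ 6 := by
      have h7 : (n : ℝ) ^ 6 = (n : ℝ) ^ 3 * (n : ℝ) ^ 3 := by ring
      rw [h7]
      nlinarith
    nlinarith [mul_le_mul_of_nonneg_left h6 (by positivity : (0 : ℝ) ≤ (n : ℝ) ^ 2)]
  · have h5 : Real.sqrt (2 ^ s) = (2 : ℝ) ^ ((s : ℝ) / 2) := by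
      rw [Real.sqrt_eq_rpow, ← Real.rpow_natCast, ← Real.rpow_mul (by norm_num)]
      congr 1
      ring
    rw [h5]
    have h6 : (2 : ℝ) ^ ((s : ℝ) / 2) ≤ (2 : ℝ) ^ ((1 - t + e) * n / 2 - 1) := by
      refine Real.rpow_le_rpow_of_exponent_le (by norm_num) ?_
      nlinarith
    have h7 : (1 : ℝ) ≤ (2 : ℝ) ^ ((1 - t + e) * n / 2 - 1) := by
      refine Real.one_le_rpow (by norm_num) ?_
      nlinarith
    have h8 : (2 : ℝ) ^ ((1 - t + e) * n / 2) = 2 * (2 : ℝ) ^ ((1 - t + e) * n / 2 - 1) := by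
      rw [Real.rpow_sub (by norm_num), Real.rpow_one]
      ring
    rw [h8]
    linarith
  · have hs1' : 1 ≤ s := by
      have : (0 : ℝ) < s := lt_of_lt_of_le (by positivity) hs2
      exact_mod_cast this
    have h5 : (1 : ℝ) / 2 ^ (s - 1) = (2 : ℝ) ^ (-((s : ℝ) - 1)) := by
      rw [Real.rpow_neg (by norm_num), one_div]
      congr 1
      rw [← Real.rpow_natCast, Nat.cast_sub hs1', Nat.cast_one]
    rw [h5]
    refine Real.rpow_le_rpow_of_exponent_le (by norm_num) ?_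
    nlinarith
  · have h5 : ((q : ℝ) + 1) ^ 4 ≤ 16 * (n : ℝ) ^ 4 := by
      have h6 : (q : ℝ) + 1 ≤ 2 * n := by linarith
      have h7 := pow_le_pow_left₀ (by positivity : (0 : ℝ) ≤ (q : ℝ) + 1) h6 4
      nlinarith
    have h6 : 3 * (n : ℝ) ≤ (1 / 32) ^ 2 * m / (1728 * (q + 1) ^ 4) := by
      rw [le_div_iff₀ (by positivity)]
      have h7 : 3 * (n : ℝ) * (1728 * ((q : ℝ) + 1) ^ 4) ≤
          3 * (n : ℝ) * (1728 * (16 * (n : ℝ) ^ 4)) := by
        refine mul_le_mul_of_nonneg_left ?_ (by positivity)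
        linarith
      refine le_trans h7 ?_
      have h8 : (n : ℝ) ^ 5 * (n : ℝ) ^ 3 = (n : ℝ) ^ 8 := by ring
      have h9 : (n : ℝ) ^ 5 * 85184000 ≤ (n : ℝ) ^ 5 * (n : ℝ) ^ 3 :=
        mul_le_mul_of_nonneg_left hn3 (by positivity)
      have h10 : (n : ℝ) * (n : ℝ) ^ 4 = (n : ℝ) ^ 5 := by ring
      nlinarith [pow_pos hn0 5]
    have h7 : Real.exp (-((1 / 32) ^ 2 * m / (1728 * (q + 1) ^ 4))) ≤
        (2 : ℝ) ^ (-(3 * (n : ℝ))) := by
      have h8 : (2 : ℝ) ^ (-(3 * (n : ℝ))) = Real.exp (Real.log 2 * (-(3 * (n : ℝ)))) := by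
        rw [Real.rpow_def_of_pos (by norm_num)]
      rw [h8]
      refine Real.exp_le_exp.2 ?_
      have h9 : Real.log 2 ≤ 1 := by
        have := Real.log_two_lt_d9
        linarith
      nlinarith
    have h8 : (2 : ℝ) ^ n = (2 : ℝ) ^ (n : ℝ) := (Real.rpow_natCast 2 n).symm
    have h9 : (2 : ℝ) ^ (n : ℝ) * (2 * (2 : ℝ) ^ (-(3 * (n : ℝ)))) =
        (2 : ℝ) ^ ((n : ℝ) + (1 + -(3 * (n : ℝ)))) := by
      rw [Real.rpow_add (by norm_num), Real.rpow_add (by norm_num), Real.rpow_one]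
    rw [h8]
    refine le_trans (mul_le_mul_of_nonneg_left (mul_le_mul_of_nonneg_left h7 (by norm_num))
      (by positivity)) ?_
    rw [h9]
    refine Real.rpow_le_rpow_of_exponent_le (by norm_num) ?_
    nlinarith

/-- the planted formulas -/
private theorem planted (hODD : T_ODD) (hDIA : T_DIA) (hMNA : T_MNA) (hCNC : T_CNC)
    (hWTS : T_WTS) {n k : ℕ} (hn0 : 0 < n) (hk0 : 0 < k) (m q s : ℕ) (hm0 : 0 < m) (hs0 : 0 < s)
    (hsn : s ≤ n) (hqm : (q : ℝ) ^ 2 / (2 * m) ≤ 1 / 64) (x : ℝ)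
    (hNx : (1 : ℝ) / ((G n k s).card : ℝ) ≤ x)
    (hnE : (2 : ℝ) ^ n * (2 * Real.exp (-((1 / 32) ^ 2 * m / (1728 * (q + 1) ^ 4)))) ≤ x)
    (hsum : ∀ a z : Fin n → Bool, (∃ i : Fin n, (i : ℕ) < s ∧ z i ≠ a i) →
      (Even k → ∃ i : Fin n, (i : ℕ) < s ∧ z i = a i) →
      ∑ y ∈ (Set.toFinite {y : Fin n → Bool | ∀ i : Fin n, (i : ℕ) < s → y i = a i}).toFinset,
        ((1 + kap y z ^ k) / 2) ^ q ≤ 1 / 32)
    (A : Alg q m (Cl n k)) (T : ℕ)
    (hA : ∀ (F : Fin m → Cl n k) (v : Fin A.a → ℝ), Adm A (1 / 4) F v →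
      (∃ i₀ : Fin (G n k s).card,
        7 / 8 ≤ ex F (dm (ht s ((G n k s).equivFin.symm i₀ : Fin n → Bool)) :
          Matrix (Fin q → Fin m × Cl n k) (Fin q → Fin m × Cl n k) ℂ) ∧
        ∀ i ≠ i₀, ex F (dm (ht s ((G n k s).equivFin.symm i : Fin n → Bool)) :
          Matrix (Fin q → Fin m × Cl n k) (Fin q → Fin m × Cl n k) ℂ) ≤ 1 / 8) →
      1 - 1 / ((G n k s).card : ℝ) ≤ A.pr T v) (z : Fin n → Bool) :
    1 - x ≤ EF (pc (Qodd k) z) m (fun F : Fin m → Cl n k =>
      ind (∀ v, Adm A (1 / 4) F v → 1 - x ≤ A.pr T v)) := by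
  classical
  have hw : Pw (pc (Qodd k) z : Cl n k → ℝ) :=
    (hWTS n k k (Qodd k) z hn0 (hODD k hk0).1).2.1
  obtain ⟨as, y, hasG, hys, hyodd, hwrong⟩ := right (k := k) hn0 s hs0 z
  refine good (pc (Qodd k) z) hw m _
    (fun F => ∑ a ∈ (G n k s).erase as, ind (1 / 8 < ex F (dm (ht s a) :
      Matrix (Fin q → Fin m × Cl n k) (Fin q → Fin m × Cl n k) ℂ))) x
    (fun F => Finset.sum_nonneg fun a _ => ind_nonneg _) ?_ ?_
  · intro F hF hlt v hv
    refine le_trans ?_ (hA F v hv ⟨(G n k s).equivFin ⟨as, hasG⟩, ?_, ?_⟩)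
    · linarith
    · rw [Equiv.symm_apply_apply]
      rw [ex_one hDIA q s as y F hm0 hys fun j => hyodd (F j) (hF j)]
      norm_num
    · intro i hi
      by_contra hc
      have h2 : ((G n k s).equivFin.symm i : Fin n → Bool) ∈ (G n k s).erase as := by
        refine Finset.mem_erase.2 ⟨?_, ((G n k s).equivFin.symm i).2⟩
        intro h3
        apply hi
        rw [← (G n k s).equivFin.apply_symm_apply i]
        congr 1
        exact Subtype.ext h3
      have h3 := Finset.single_le_sum (f := fun a => ind (1 / 8 < ex F (dm (ht s a) :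
        Matrix (Fin q → Fin m × Cl n k) (Fin q → Fin m × Cl n k) ℂ)))
        (fun a _ => ind_nonneg _) h2
      have h4 := ind_true _ (not_le.1 hc)
      linarith
  · refine le_trans (union hDIA hCNC m q s _ _ hw hm0 hqm ?_) hnE
    intro a ha
    obtain ⟨hane, haG⟩ := Finset.mem_erase.1 ha
    obtain ⟨h2, h3⟩ := hwrong a haG hane
    exact le_trans ((hMNA n k q s a hn0 hk0 hsn).2 z) (hsum a z h2 h3)

/-- the uniform formulas -/
private theorem uniform (hODD : T_ODD) (hDIA : T_DIA) (hMNA : T_MNA) (hCNC : T_CNC)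
    (hWTS : T_WTS) {n k : ℕ} (hn0 : 0 < n) (hk0 : 0 < k) (m q s : ℕ) (hm0 : 0 < m)
    (hsn : s ≤ n) (hqm : (q : ℝ) ^ 2 / (2 * m) ≤ 1 / 64) (x : ℝ) (hx0 : 0 ≤ x)
    (hnE : (2 : ℝ) ^ n * (2 * Real.exp (-((1 / 32) ^ 2 * m / (1728 * (q + 1) ^ 4)))) ≤ x)
    (h0 : (2 : ℝ) ^ (n - s) / 2 ^ q ≤ 1 / 32) (A : Alg q m (Cl n k)) (T : ℕ)
    (hA : ∀ (F : Fin m → Cl n k) (v : Fin A.a → ℝ), Adm A (1 / 4) F v →
      (∀ i : Fin (G n k s).card,
        ex F (dm (ht s ((G n k s).equivFin.symm i : Fin n → Bool)) :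
          Matrix (Fin q → Fin m × Cl n k) (Fin q → Fin m × Cl n k) ℂ) ≤ 1 / 8) →
      A.pr T v = 0) :
    1 - x ≤ Pun m (fun F : Fin m → Cl n k => ∀ v, Adm A (1 / 4) F v → A.pr T v ≤ x) := by
  classical
  have hw : Pw (uc : Cl n k → ℝ) :=
    (hWTS n k k (Qodd k) (fun _ => false) hn0 (hODD k hk0).1).1
  unfold Pun
  refine good uc hw m _
    (fun F => ∑ a ∈ G n k s, ind (1 / 8 < ex F (dm (ht s a) :
      Matrix (Fin q → Fin m × Cl n k) (Fin q → Fin m × Cl n k) ℂ))) x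
    (fun F => Finset.sum_nonneg fun a _ => ind_nonneg _) ?_ ?_
  · intro F _ hlt v hv
    rw [hA F v hv]
    · exact hx0
    · intro i
      by_contra hc
      have h3 := Finset.single_le_sum (f := fun a => ind (1 / 8 < ex F (dm (ht s a) :
        Matrix (Fin q → Fin m × Cl n k) (Fin q → Fin m × Cl n k) ℂ)))
        (fun a _ => ind_nonneg _) ((G n k s).equivFin.symm i).2
      have h4 := ind_true _ (not_le.1 hc)
      linarith
  · refine le_trans (union hDIA hCNC m q s _ _ hw hm0 hqm ?_) hnE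
    intro a _
    exact le_trans (hMNA n k q s a hn0 hk0 hsn).1 h0

theorem pf_OPT (hODD : T_ODD) (hDIA : T_DIA) (hMNA : T_MNA) (hSUM : T_SUM) (hGRO : T_GRO)
    (hCNC : T_CNC) (hWTS : T_WTS) : T_OPT := by
  classical
  intro t e ht0 ht1 he
  obtain ⟨e', he', hee, het⟩ : ∃ e' : ℝ, 0 < e' ∧ e' ≤ e / 2 ∧ e' ≤ t / 2 :=
    ⟨min e t / 2, by positivity, by linarith [min_le_left e t], by linarith [min_le_right e t]⟩
  obtain ⟨C1, hC1, n1, hn1⟩ := hSUM t e' he' (by linarith) ht1.le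
  obtain ⟨n2, hn2, hnum⟩ := numbers t e e' C1 ht0 ht1 he' hee het
  refine ⟨max C1 8, lt_of_lt_of_le hC1 (le_max_left _ _), (1 - t) / 2, by linarith,
    max n1 n2, ?_⟩
  intro n hn k q m hk hq hq' hm
  have hnn1 : n ≥ n1 := le_trans (le_max_left _ _) hn
  have hnn2 : n ≥ n2 := le_trans (le_max_right _ _) hn
  have hn2' : 2 ≤ n := le_trans hn2 hnn2
  have hn0 : 0 < n := by omega
  have hn0' : (0 : ℝ) < n := by exact_mod_cast hn0
  have hlog : 0 < Real.log n := Real.log_pos (by exact_mod_cast (by omega : 1 < n))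
  have hk1 : C1 * Real.log n ≤ k :=
    le_trans (mul_le_mul_of_nonneg_right (le_max_left _ _) hlog.le) hk
  have hk0 : 0 < k := by
    have : (0 : ℝ) < k := lt_of_lt_of_le (by positivity) hk1
    exact_mod_cast this
  have h1t : 0 < 1 - t := by linarith
  -- the number of guessed variables
  obtain ⟨s, hs2, hs1, hsn⟩ : ∃ s : ℕ, (1 - t + e') * n ≤ s ∧ (s : ℝ) < (1 - t + e') * n + 1 ∧
      s ≤ n := by
    refine ⟨⌈(1 - t + e') * n⌉₊, Nat.le_ceil _, Nat.ceil_lt_add_one (by positivity), ?_⟩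
    refine Nat.ceil_le.2 ?_
    have : 1 - t + e' ≤ 1 := by linarith
    nlinarith
  have hs0 : 0 < s := by
    have : (0 : ℝ) < s := lt_of_lt_of_le (by positivity) hs2
    exact_mod_cast this
  have hns : ((n : ℝ) - s) ≤ (t - e') * n := by nlinarith
  obtain ⟨hm0, hqm, hnT, hnN, hnE⟩ := hnum n hnn2 q m s hq hm hs1 hs2
  generalize hx : (2 : ℝ) ^ (-((1 - t) / 2 * n)) = x at hnN hnE ⊢
  have hx0 : 0 < x := by rw [← hx]; positivity
  have hsum := fun (a z : Fin n → Bool) => hn1 n hnn1 k q s a z hk1 (by linarith) hsn hns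
  have h0 : (2 : ℝ) ^ (n - s) / 2 ^ q ≤ 1 / 32 := by
    by_cases hs : 1 < s
    · -- two different values on the guessed variables
      refine (hsum (fun _ => false) (fun i => if (i : ℕ) = 0 then true else false)
        ⟨⟨0, hn0⟩, hs0, ?_⟩ (fun _ => ⟨⟨1, by omega⟩, hs, ?_⟩)).2
      · simp
      · simp
    · exfalso
      have hs1' : s = 1 := by omega
      rw [hs1'] at hnN
      simp only [Nat.sub_self, pow_zero, div_one] at hnN
      have h4 : x < 1 := by
        rw [← hx]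
        refine Real.rpow_lt_one_of_one_lt_of_neg (by norm_num) ?_
        have : 0 < (1 - t) / 2 * n := by positivity
        linarith
      linarith
  -- the guesses
  have hN0 : 0 < (G n k s).card := lt_of_lt_of_le (by positivity) (card_G_ge n k s hsn)
  have hMobs : ∀ a : Fin n → Bool,
      Obs (dm (ht s a) : Matrix (Fin q → Fin m × Cl n k) (Fin q → Fin m × Cl n k) ℂ) :=
    fun a => (hDIA (Cl n k) m q (ht s a) hm0 (ht_abs s a)).1
  obtain ⟨A, T, hT, hA⟩ := hGRO (Cl n k) m q (G n k s).card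
    (fun i => dm (ht s ((G n k s).equivFin.symm i : Fin n → Bool))) hN0 (fun i => hMobs _)
  have hNx : (1 : ℝ) / ((G n k s).card : ℝ) ≤ x := by
    refine le_trans ?_ hnN
    refine one_div_le_one_div_of_le (by positivity) ?_
    exact_mod_cast card_G_ge n k s hsn
  refine ⟨A, T, ?_, ?_, ?_⟩
  · refine le_trans hT (le_trans ?_ hnT)
    have h1 : ((G n k s).card : ℝ) ≤ 2 ^ s := by exact_mod_cast card_G_le n k s hsn
    have := Real.sqrt_le_sqrt h1
    linarith
  · -- the planted formulas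
    unfold Ppl
    rw [le_div_iff₀ (by positivity)]
    have h2 := Finset.sum_le_sum fun (z : Fin n → Bool) (_ : z ∈ Finset.univ) =>
      planted hODD hDIA hMNA hCNC hWTS hn0 hk0 m q s hm0 hs0 hsn hqm x hNx hnE
        (fun a z h2 h3 => (hsum a z h2 h3).1) A T (fun F v hv => (hA F v hv).1) z
    rw [Finset.sum_const, Finset.card_univ, Fintype.card_fun, Fintype.card_bool,
      Fintype.card_fin, nsmul_eq_mul] at h2
    push_cast at h2
    rw [mul_comm]
    exact h2
  · exact uniform hODD hDIA hMNA hCNC hWTS hn0 hk0 m q s hm0 hsn hqm x hx0.le hnE h0 A T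
      (fun F v hv => (hA F v hv).2)

end Pool.Agent.H74.SQ.OPT
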